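import Pool.Agent.Lib.MP_a4368a_lc.Member37

namespace Pool.Agent.Results.MP_a4368a_lc.PlanarComplete

open N68a2faeb N793a5b8e Pool.Agent.Lib.MP_a4368a_lc

open Classical in
/-- The angular resolution problem restricted to planar graphs. -/
noncomputable def PlanarAngRes : DecisionProblem := fun w =>
  decide (∃ (V : List ℕ) (E : List (ℕ × ℕ)) (k : ℕ), w = N487b59b3.bitEncode (V, E, k) ∧
    IsGraph V E ∧ Planar V E ∧ 2 ≤ k ∧ HasRes V E (Real.pi / (2 * (k : ℝ))))

/-- The angular resolution problem on planar graphs is complete for the class of the existential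
theory of the reals; the reductions only produce planar graphs and `k = 2`. -/
theorem result : IsCompleteFor ExistsR PlanarAngRes ∧
    ∀ L ∈ ExistsR, ∃ f : List Bool → List ℕ × List (ℕ × ℕ) × ℕ, IsPolyTime f ∧ ∀ x,
      IsGraph (f x).1 (f x).2.1 ∧ Planar (f x).1 (f x).2.1 ∧ (f x).2.2 = 2 ∧
        L x = PlanarAngRes (N487b59b3.bitEncode (f x)) := by
  have hard : ∀ L ∈ ExistsR, ∃ f : List Bool → List ℕ × List (ℕ × ℕ) × ℕ, IsPolyTime f ∧ ∀ x,
      IsGraph (f x).1 (f x).2.1 ∧ Planar (f x).1 (f x).2.1 ∧ (f x).2.2 = 2 ∧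
        L x = PlanarAngRes (N487b59b3.bitEncode (f x)) := by
    rintro L ⟨g, hg, hL⟩
    obtain ⟨f, hf, h⟩ := etr_hard
    refine ⟨fun x => f (g x), hf.comp hg, fun x => ?_⟩
    obtain ⟨h1, h2, h3, h4⟩ := h (g x)
    refine ⟨h1, h2, h3, ?_⟩
    have e : Real.pi / (2 * ((2 : ℕ) : ℝ)) = Real.pi / 4 := by norm_num
    rw [hL, Bool.eq_iff_iff, h4]
    simp only [PlanarAngRes, decide_eq_true_eq]
    constructor
    · exact fun h => ⟨_, _, (f (g x)).2.2, rfl, h1, h2, h3.ge, by rw [h3, e]; exact h⟩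
    · rintro ⟨V, E, k, e', -, -, -, h5⟩
      have := N487b59b3.bitEncode_injective e'
      rw [this] at h3 ⊢
      rw [show k = 2 from h3, e] at h5
      exact h5
  refine ⟨⟨?_, fun L hL => ?_⟩, hard⟩
  · obtain ⟨f, hf, h⟩ := member
    refine ⟨f, hf, fun w => ?_⟩
    rw [Bool.eq_iff_iff, h]
    simp only [PlanarAngRes, decide_eq_true_eq]
  · obtain ⟨f, hf, h⟩ := hard L hL
    exact ⟨fun x => N487b59b3.bitEncode (f x), hf.bitEncode, fun x => (h x).2.2.2⟩

end Pool.Agent.Results.MP_a4368a_lc.PlanarComplete
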