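import Pool.Agent.FS.AngUniv.Grid

/-! Drawings of planar graphs with angular resolution `π / 4` over subfields of the reals and on
the integer grid. -/

namespace Pool.Agent.Results.MP_a4368a_lc.Universality

open N68a2faeb Pool.Agent.Lib.MP_a4368a_lc Pool.Agent.FS.AngUniv

theorem result : ∃ f : List ℕ → List ℕ × List (ℕ × ℕ), IsPolyTime f ∧ ∀ t : Tm,
    IsGraph (f t.code).1 (f t.code).2 ∧ Planar (f t.code).1 (f t.code).2 ∧
    (∀ K : Subfield ℝ,
      (∃ p : ℕ → ℂ, IsDrawing (f t.code).1 (f t.code).2 p ∧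
        (∀ v a b, Adj (f t.code).2 v a → Adj (f t.code).2 v b → a ≠ b →
          Real.pi / 4 ≤ EuclideanGeometry.angle (p a) (p v) (p b)) ∧
        ∀ v ∈ (f t.code).1, (p v).re ∈ K ∧ (p v).im ∈ K) ↔
      ∃ x : ℕ → ℝ, (∀ i, x i ∈ K) ∧ t.eval x = 0) ∧
    ((∃ p : ℕ → ℂ, IsDrawing (f t.code).1 (f t.code).2 p ∧
        (∀ v a b, Adj (f t.code).2 v a → Adj (f t.code).2 v b → a ≠ b →
          Real.pi / 4 ≤ EuclideanGeometry.angle (p a) (p v) (p b)) ∧
        ∀ v ∈ (f t.code).1, ∃ m n : ℤ, (p v).re = m ∧ (p v).im = n) ↔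
      ∃ x : ℕ → ℚ, t.eval (fun i => (x i : ℝ)) = 0) :=
  ⟨fun w => gr (w ++ [0] ++ [5]), pt_gr, fun t => ⟨(gr_graph _).1, (gr_graph _).2, field_iff t,
    grid_iff.trans ((field_iff t _).trans (rat_iff t))⟩⟩

end Pool.Agent.Results.MP_a4368a_lc.Universality
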